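import Pool.Agent.H54.CT2.Fin2
import Pool.Agent.H54.CT.Ori

/-!
# The growth rate of the number of CTOs (MP_6dcc4d_co, Q2)
-/

set_option autoImplicit false

namespace Pool.Agent.Results.MP_6dcc4d_co.CountCTOStar

open Pool.Agent.H54

/-- Twice the signed area of the triangle `p q r` of the plane: it is positive if and only if
`p, q, r` are in counterclockwise order. -/
def area2 (p q r : ℝ × ℝ) : ℝ := (q.1 - p.1) * (r.2 - p.2) - (q.2 - p.2) * (r.1 - p.1)

/-- `χ` is a CTO on `n` elements (with the value `0` on triples that are not distinct): there are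
convex sets `A i` in the plane, pairwise intersecting, no three with a common point, and for all
distinct `i, j, k` there are `p ∈ A i ∩ A j`, `q ∈ A j ∩ A k`, `r ∈ A k ∩ A i` such that the
triangle `p q r` has orientation `χ i j k`.  (The triangle is the concatenation of the arcs
`[r, p]` in `A i`, `[p, q]` in `A j` and `[q, r]` in `A k`.) -/
def IsCTO {n : ℕ} (χ : Fin n → Fin n → Fin n → SignType) : Prop :=
  (∀ i j k, i = j ∨ j = k ∨ i = k → χ i j k = 0) ∧
  ∃ A : Fin n → Set (ℝ × ℝ), (∀ i, Convex ℝ (A i)) ∧ (∀ i j, (A i ∩ A j).Nonempty) ∧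
    (∀ i j k, i ≠ j → j ≠ k → i ≠ k → A i ∩ A j ∩ A k = ∅) ∧
    ∀ i j k, i ≠ j → j ≠ k → i ≠ k → ∃ p ∈ A i ∩ A j, ∃ q ∈ A j ∩ A k, ∃ r ∈ A k ∩ A i,
      0 < (χ i j k : ℝ) * area2 p q r

/-- the number `c(n)` of CTOs on `n` elements -/
noncomputable def c (n : ℕ) : ℕ :=
  Nat.card {χ : Fin n → Fin n → Fin n → SignType // IsCTO χ}

/-- the iterated logarithm `log* x`: the least `k` such that the `k`-fold natural logarithm of `x`
is at most `1` -/
noncomputable def logStar (x : ℝ) : ℕ := sInf {k : ℕ | Real.log^[k] x ≤ 1}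

/-- The orientation does not depend on the choice of the triangle. -/
theorem isCTO_iff {n : ℕ} (χ : Fin n → Fin n → Fin n → SignType) : IsCTO χ ↔ CT.IsCTO χ := by
  constructor
  · rintro ⟨h0, A, h1, h2, h3, h4⟩
    refine ⟨h0, A, h1, h2, h3, ?_⟩
    intro i j k hij hjk hik p hp q hq r hr
    obtain ⟨p', hp', q', hq', r', hr', h5⟩ := h4 i j k hij hjk hik
    have h6 : 0 < CT.det3 p q r * CT.det3 p' q' r' :=
      CT.orient_const (h1 i) (h1 j) (h1 k) (h3 i j k hij hjk hik) hp hq hr hp' hq' hr'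
    have h7 : area2 p' q' r' = CT.det3 p' q' r' := rfl
    rw [h7] at h5
    have h8 := mul_pos h5 h6
    have h9 : (χ i j k : ℝ) * CT.det3 p' q' r' * (CT.det3 p q r * CT.det3 p' q' r') =
        ((χ i j k : ℝ) * CT.det3 p q r) * (CT.det3 p' q' r') ^ 2 := by ring
    rw [h9] at h8
    exact (pos_iff_pos_of_mul_pos h8).2 (by
      have h10 : CT.det3 p' q' r' ≠ 0 := fun h => by
        rw [h, mul_zero] at h6
        exact lt_irrefl _ h6
      positivity)
  · rintro ⟨h0, A, h1, h2, h3, h4⟩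
    refine ⟨h0, A, h1, h2, h3, ?_⟩
    intro i j k hij hjk hik
    obtain ⟨p, hp⟩ := h2 i j
    obtain ⟨q, hq⟩ := h2 j k
    obtain ⟨r, hr⟩ := h2 k i
    exact ⟨p, hp, q, hq, r, hr, h4 i j k hij hjk hik p hp q hq r hr⟩

theorem c_eq (n : ℕ) : c n = CT.cto n := by
  unfold c CT.cto
  exact Nat.card_congr (Equiv.subtypeEquivRight isCTO_iff)

/-- `(n-1)! ≤ c(n) ≤ exp(K^(log* n) n log n)`, and `log c(n) = n (log n)^(1+o(1))`. -/
theorem result :
    (∀ n : ℕ, 1 ≤ n → (n - 1).factorial ≤ c n) ∧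
    (∃ K : ℕ, ∀ n : ℕ, 3 ≤ n → (c n : ℝ) ≤ Real.exp ((K : ℝ) ^ logStar n * n * Real.log n)) ∧
    Filter.Tendsto (fun n : ℕ => Real.log (Real.log (c n) / n) / Real.log (Real.log n))
      Filter.atTop (nhds 1) := by
  refine ⟨?_, ?_, ?_⟩
  · intro n hn
    obtain ⟨m, rfl⟩ : ∃ m, n = m + 1 := ⟨n - 1, by omega⟩
    rw [c_eq]
    exact CT.cto_lower m
  · obtain ⟨K, -, hK⟩ := CT2.cto_upper2
    refine ⟨K, fun n hn => ?_⟩
    rw [c_eq]
    exact hK n hn
  · have h := CT2.cto_growth2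
    refine h.congr fun n => ?_
    rw [c_eq]

end Pool.Agent.Results.MP_6dcc4d_co.CountCTOStar
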