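import Pool.Agent.H54.GC.Fin
import Pool.Agent.H54.CT.Ori

/-!
# The number of GCTOs, and GCTOs versus CTOs (MP_6dcc4d_co, Q1)

The definitions `cross`, `PlaneTree`, `PlaneTree.carrier`, `PlaneTree.area`, `Realizes`, `IsGCTO`
and `gcto` are in `Pool/Agent/H54/GC/Defs.lean`.
-/

set_option autoImplicit false

namespace Pool.Agent.Results.MP_6dcc4d_co.CountGCTO

open Pool.Agent.H54

/-- Twice the signed area of the triangle `p q r` of the plane: it is positive if and only if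
`p, q, r` are in counterclockwise order. -/
def area2 (p q r : ℝ × ℝ) : ℝ := (q.1 - p.1) * (r.2 - p.2) - (q.2 - p.2) * (r.1 - p.1)

/-- `χ` is a CTO on `n` elements (with the value `0` on triples that are not distinct): there are
convex sets `A i` in the plane, pairwise intersecting, no three with a common point, and for all
distinct `i, j, k` there are `p ∈ A i ∩ A j`, `q ∈ A j ∩ A k`, `r ∈ A k ∩ A i` such that the
triangle `p q r` has orientation `χ i j k`.  (The triangle is the concatenation of the arcs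
`[r, p]` in `A i`, `[p, q]` in `A j` and `[q, r]` in `A k`.) -/
def IsCTO {n : ℕ} (χ : Fin n → Fin n → Fin n → SignType) : Prop :=
  (∀ i j k, i = j ∨ j = k ∨ i = k → χ i j k = 0) ∧
  ∃ A : Fin n → Set (ℝ × ℝ), (∀ i, Convex ℝ (A i)) ∧ (∀ i j, (A i ∩ A j).Nonempty) ∧
    (∀ i j k, i ≠ j → j ≠ k → i ≠ k → A i ∩ A j ∩ A k = ∅) ∧
    ∀ i j k, i ≠ j → j ≠ k → i ≠ k → ∃ p ∈ A i ∩ A j, ∃ q ∈ A j ∩ A k, ∃ r ∈ A k ∩ A i,
      0 < (χ i j k : ℝ) * area2 p q r

/-- the number `c(n)` of CTOs on `n` elements -/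
noncomputable def c (n : ℕ) : ℕ :=
  Nat.card {χ : Fin n → Fin n → Fin n → SignType // IsCTO χ}

/-- The orientation does not depend on the choice of the triangle. -/
theorem isCTO_iff {n : ℕ} (χ : Fin n → Fin n → Fin n → SignType) : IsCTO χ ↔ CT.IsCTO χ := by
  constructor
  · rintro ⟨h0, A, h1, h2, h3, h4⟩
    refine ⟨h0, A, h1, h2, h3, ?_⟩
    intro i j k hij hjk hik p hp q hq r hr
    obtain ⟨p', hp', q', hq', r', hr', h5⟩ := h4 i j k hij hjk hik
    have h6 : 0 < CT.det3 p q r * CT.det3 p' q' r' :=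
      CT.orient_const (h1 i) (h1 j) (h1 k) (h3 i j k hij hjk hik) hp hq hr hp' hq' hr'
    have h7 : area2 p' q' r' = CT.det3 p' q' r' := rfl
    rw [h7] at h5
    have h8 := mul_pos h5 h6
    have h9 : (χ i j k : ℝ) * CT.det3 p' q' r' * (CT.det3 p q r * CT.det3 p' q' r') =
        ((χ i j k : ℝ) * CT.det3 p q r) * (CT.det3 p' q' r') ^ 2 := by ring
    rw [h9] at h8
    exact (pos_iff_pos_of_mul_pos h8).2 (by
      have h10 : CT.det3 p' q' r' ≠ 0 := fun h => by
        rw [h, mul_zero] at h6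
        exact lt_irrefl _ h6
      positivity)
  · rintro ⟨h0, A, h1, h2, h3, h4⟩
    refine ⟨h0, A, h1, h2, h3, ?_⟩
    intro i j k hij hjk hik
    obtain ⟨p, hp⟩ := h2 i j
    obtain ⟨q, hq⟩ := h2 j k
    obtain ⟨r, hr⟩ := h2 k i
    exact ⟨p, hp, q, hq, r, hr, h4 i j k hij hjk hik p hp q hq r hr⟩

theorem c_eq (n : ℕ) : c n = CT.cto n := by
  unfold c CT.cto
  exact Nat.card_congr (Equiv.subtypeEquivRight isCTO_iff)

/-- The number `g(n)` of orientations of `n` elements which are realised by plane trees (pairwise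
exactly one common point, no three with a common point) satisfies
`n^(4/3)/200 ≤ log g(n) ≤ 5 n² log n`, and there are far fewer CTOs:
`log c(n) ≤ (log g(n)) ^ (3/4 + ε)` for every `ε > 0` and all large `n`. -/
theorem result :
    (∀ n : ℕ, 2 ≤ n → Real.log (GC.gcto n) ≤ 5 * (n : ℝ) ^ 2 * Real.log n) ∧
    (∀ n : ℕ, 5 ≤ n → (n : ℝ) ^ ((4 : ℝ) / 3) / 200 ≤ Real.log (GC.gcto n)) ∧
    (∀ ε : ℝ, 0 < ε → ∀ᶠ n : ℕ in Filter.atTop,
      Real.log (c n) ≤ Real.log (GC.gcto n) ^ ((3 : ℝ) / 4 + ε)) := by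
  refine ⟨GC.log_upper, GC.log_lower, ?_⟩
  intro ε hε
  refine (GC.power ε hε).mono fun n hn => ?_
  rw [c_eq]
  exact hn

end Pool.Agent.Results.MP_6dcc4d_co.CountGCTO
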